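import Mathlib
import Pool.Agent.H.MP_0ba956_nt.A

namespace Pool.Agent.Results.MP_0ba956_nt.Yes

open Pool.Agent.H.MP_0ba956_nt

noncomputable def QD4 : IntermediateField ℚ (AlgebraicClosure ℚ) :=
  sSup {L | IsGalois ℚ L ∧ Nonempty (Gal(L/ℚ) ≃* DihedralGroup 4)}

lemma root (u z : ℚ) (w : AlgebraicClosure ℚ) (hw : w ^ 2 = u)
    (hu : ¬ IsSquare u) (h0 : 0 < u) (hn : z ^ 2 - u < 0) :
    ∃ β ∈ QD4, ∃ γ ∈ QD4, β ^ 2 = z + w ∧ γ ^ 2 = z - w := by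
  obtain ⟨L, h1, h2, β, h3, γ, h4, h5⟩ := dih u z w hw hu (not_isSquare_of_neg hn)
    (not_isSquare_of_neg (mul_neg_of_pos_of_neg h0 hn))
  have : L ≤ QD4 := le_sSup ⟨h1, h2⟩
  exact ⟨β, this h3, γ, this h4, h5⟩

lemma nsq (n : ℕ) (h : ¬ IsSquare n) : ¬ IsSquare (n : ℚ) := by simpa using h

lemma iden (a b c : AlgebraicClosure ℚ) (ha : a ^ 2 = 2) (hb : b ^ 2 = 3) (hc : c ^ 2 = 7) :
    (-42 + 14 * b - 9 * a * c + 5 * a * b * c) * ((3 + b * c) * (0 + a * c) * (1 + a) * (1 + b)) =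
      2 * ((1 + a) * (1 - a) * c ^ 2 * (3 + 2 * b + b * c + 2 * a * b) ^ 2) := by
  grind

lemma key (α a b c : AlgebraicClosure ℚ) (ha : a ^ 2 = 2) (hb : b ^ 2 = 3) (hc : c ^ 2 = 7)
    (h : 2 * α ^ 2 = -42 + 14 * b - 9 * a * c + 5 * a * b * c) : α ∈ QD4 := by
  obtain ⟨p, mp, p', -, hp, hp'⟩ := root 21 3 (b * c) (by rw [mul_pow, hb, hc]; norm_num)
    (nsq 21 (by decide +kernel)) (by norm_num) (by norm_num)
  obtain ⟨q, mq, q', -, hq, hq'⟩ := root 14 0 (a * c) (by rw [mul_pow, ha, hc]; norm_num)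
    (nsq 14 (by decide +kernel)) (by norm_num) (by norm_num)
  obtain ⟨s, ms, s', ms', hs, hs'⟩ := root 2 1 a (by rw [ha]; norm_num)
    (nsq 2 (by decide +kernel)) (by norm_num) (by norm_num)
  obtain ⟨t, mt, t', -, ht, ht'⟩ := root 3 1 b (by rw [hb]; norm_num)
    (nsq 3 (by decide +kernel)) (by norm_num) (by norm_num)
  push_cast at hp hp' hq hq' hs hs' ht ht'
  have ma : a ∈ QD4 := by
    rw [show a = s ^ 2 - 1 by rw [hs]; ring]; exact sub_mem (pow_mem ms _) (one_mem _)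
  have mb : b ∈ QD4 := by
    rw [show b = t ^ 2 - 1 by rw [ht]; ring]; exact sub_mem (pow_mem mt _) (one_mem _)
  have mc : c ∈ QD4 := by
    rw [show c = q ^ 2 * a / 2 by rw [hq]; linear_combination (-c / 2) * ha]
    exact div_mem (mul_mem (pow_mem mq _) ma) (ofNat_mem _ 2)
  have h1 : (p * q * s * t) * (p * q * s * t) * ((p' * q' * s' * t') * (p' * q' * s' * t')) ≠ 0 := by
    have : (p * q * s * t) * (p * q * s * t) * ((p' * q' * s' * t') * (p' * q' * s' * t')) =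
        p ^ 2 * p' ^ 2 * (q ^ 2 * q' ^ 2) * (s ^ 2 * s' ^ 2) * (t ^ 2 * t' ^ 2) := by ring
    rw [this, hp, hp', hq, hq', hs, hs', ht, ht',
      show (3 + b * c) * (3 - b * c) * ((0 + a * c) * (0 - a * c)) * ((1 + a) * (1 - a)) *
        ((1 + b) * (1 - b)) = (9 - b ^ 2 * c ^ 2) * (-a ^ 2 * c ^ 2) * (1 - a ^ 2) * (1 - b ^ 2) by ring,
      ha, hb, hc]
    norm_num
  have h2 : p * q * s * t ≠ 0 := left_ne_zero_of_mul (left_ne_zero_of_mul h1)
  have h3 : (α * (p * q * s * t)) ^ 2 = (s * s' * c * (3 + 2 * b + b * c + 2 * a * b)) ^ 2 := by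
    simp only [mul_pow]
    rw [hp, hq, hs, hs', ht, show α ^ 2 = (-42 + 14 * b - 9 * a * c + 5 * a * b * c) / 2 by
      rw [← h]; ring]
    linear_combination iden a b c ha hb hc / 2
  have m1 : p * q * s * t ∈ QD4 := mul_mem (mul_mem (mul_mem mp mq) ms) mt
  have m2 : s * s' * c * (3 + 2 * b + b * c + 2 * a * b) ∈ QD4 :=
    mul_mem (mul_mem (mul_mem ms ms') mc) (add_mem (add_mem (add_mem (ofNat_mem _ 3)
      (mul_mem (ofNat_mem _ 2) mb)) (mul_mem mb mc)) (mul_mem (mul_mem (ofNat_mem _ 2) ma) mb))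
  rw [← mul_div_cancel_right₀ α h2]
  refine div_mem ?_ m1
  rcases sq_eq_sq_iff_eq_or_eq_neg.1 h3 with e | e <;> rw [e]
  exacts [m2, neg_mem m2]

theorem result (α : AlgebraicClosure ℚ)
    (hα : α ^ 8 + 84 * α ^ 6 + 1260 * α ^ 4 + 5292 * α ^ 2 + 441 = 0) :
    IntermediateField.adjoin ℚ {α} ≤ QD4 := by
  rw [IntermediateField.adjoin_simple_le_iff]
  obtain ⟨a, ha⟩ := IsAlgClosed.exists_pow_nat_eq (2 : AlgebraicClosure ℚ) two_pos
  obtain ⟨b, hb⟩ := IsAlgClosed.exists_pow_nat_eq (3 : AlgebraicClosure ℚ) two_pos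
  obtain ⟨c, hc⟩ := IsAlgClosed.exists_pow_nat_eq (7 : AlgebraicClosure ℚ) two_pos
  have h : (2 * α ^ 2 - (-42 + 14 * b - 9 * a * c + 5 * a * b * c)) *
      (2 * α ^ 2 - (-42 + 14 * (-b) - 9 * a * c + 5 * a * (-b) * c)) *
      ((2 * α ^ 2 - (-42 + 14 * b - 9 * a * (-c) + 5 * a * b * (-c))) *
      (2 * α ^ 2 - (-42 + 14 * (-b) - 9 * a * (-c) + 5 * a * (-b) * (-c)))) = 0 := by
    grind
  simp only [mul_eq_zero, sub_eq_zero] at h
  rcases h with (h | h) | (h | h)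
  · exact key α a b c ha hb hc h
  · exact key α a (-b) c ha (by rw [neg_sq, hb]) hc h
  · exact key α a b (-c) ha hb (by rw [neg_sq, hc]) h
  · exact key α a (-b) (-c) ha (by rw [neg_sq, hb]) (by rw [neg_sq, hc]) h

end Pool.Agent.Results.MP_0ba956_nt.Yes
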